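import Pool.Agent.Q196.KF.Main

/-!
# The Ky Fan bound `‖L(A,B)‖_(k) ≤ 2 ∑_{i ≤ k} σ_i(A) σ_i(R(B))` fails

Counterexample with `n = 15` and `k = 15`:
`A = I - 2 e₀ e₀ᵀ`, `B = v vᵀ - e₂ e₂ᵀ` (times `25`), `v = (4/5) e₀ + (3/5) e₁`.
-/

set_option autoImplicit false

open Pool.Q196.KF

namespace Pool.Agent.Results.MP_30f82a_an.SingularSum15

/-- The inequality asked for in Q1 is false: there are Hermitian `15 × 15` matrices `A, B` with
`‖L(A,B)‖_(15) > 2 ∑_{i ≤ 15} σ_i(A) σ_i(R(B))` (so `n = k = 15`). -/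
theorem result : ∃ A B : Matrix (Fin 15) (Fin 15) ℂ, A.IsHermitian ∧ B.IsHermitian ∧
    2 * ∑ i ∈ Finset.range 15, sv A i * sv (RR B) i < kyFan 15 (LL A B) :=
  main_b

end Pool.Agent.Results.MP_30f82a_an.SingularSum15
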